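import Pool.Agent.MP_c69980_ag.H43.Spec6

/-!
Velocities of derivations of abstract fields, by transfer to the complex numbers.
-/

set_option autoImplicit false

namespace Pool.Agent.MP_c69980_ag.H43

open MvPolynomial H60 Finset

variable {t a M : ℕ} {Ω : Type} [Field Ω] {Ω₀ : Subfield Ω} {φ : Ω₀ →+* ℂ} {x x' : Ω} {z z' : ℂ}

/-- The graph of an embedding of a subfield. -/
def GKkR (φ : Ω₀ →+* ℂ) (x : Ω) (z : ℂ) : Prop := ∃ h : x ∈ Ω₀, φ ⟨x, h⟩ = z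

lemma GKkR.zero : GKkR φ 0 0 := ⟨zero_mem _, map_zero φ⟩

lemma GKkR.add (h : GKkR φ x z) (h' : GKkR φ x' z') : GKkR φ (x + x') (z + z') := by
  obtain ⟨h, rfl⟩ := h
  obtain ⟨h', rfl⟩ := h'
  exact ⟨add_mem h h', map_add φ ⟨x, h⟩ ⟨x', h'⟩⟩

lemma GKkR.sub (h : GKkR φ x z) (h' : GKkR φ x' z') : GKkR φ (x - x') (z - z') := by
  obtain ⟨h, rfl⟩ := h
  obtain ⟨h', rfl⟩ := h'
  exact ⟨sub_mem h h', map_sub φ ⟨x, h⟩ ⟨x', h'⟩⟩

lemma GKkR.mul (h : GKkR φ x z) (h' : GKkR φ x' z') : GKkR φ (x * x') (z * z') := by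
  obtain ⟨h, rfl⟩ := h
  obtain ⟨h', rfl⟩ := h'
  exact ⟨mul_mem h h', map_mul φ ⟨x, h⟩ ⟨x', h'⟩⟩

lemma GKkR.inj (h : GKkR φ x z) (h' : GKkR φ x' z) : x = x' := by
  obtain ⟨h, rfl⟩ := h
  obtain ⟨h', e⟩ := h'
  exact (congrArg Subtype.val (φ.injective e)).symm

lemma GKkR.fn (h : GKkR φ x z) (h' : GKkR φ x z') : z = z' := by
  obtain ⟨h, rfl⟩ := h
  obtain ⟨h', rfl⟩ := h'
  rfl

lemma GKkR.mem (h : GKkR φ x z) : z ∈ φ.fieldRange := let ⟨_, e⟩ := h; ⟨_, e⟩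

lemma GKkR.sum {κ : Type} (s : Finset κ) {f : κ → Ω} {g : κ → ℂ}
    (h : ∀ i, GKkR φ (f i) (g i)) : GKkR φ (∑ i ∈ s, f i) (∑ i ∈ s, g i) := by
  classical
  induction s using Finset.induction_on with
  | empty => simpa using GKkR.zero
  | insert i s hi ih => rw [sum_insert hi, sum_insert hi]; exact (h i).add ih

variable [Algebra ℂ Ω] {k : Subfield ℂ}

lemma GKkR.aeval (hk : ∀ c ∈ k, GKkR φ (algebraMap ℂ Ω c) c) {σ : Type} {P : MvPolynomial σ ℂ}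
    (hP : Cf k P) {y : σ → Ω} {u : σ → ℂ} (h : ∀ i, GKkR φ (y i) (u i)) :
    GKkR φ (aeval y P) (aeval u P) := by
  obtain ⟨P', rfl⟩ := cf_iff.1 hP
  clear hP
  induction P' using MvPolynomial.induction_on with
  | C c => simpa using hk c c.2
  | add p q hp hq => simpa only [map_add] using hp.add hq
  | mul_X p i hp => simpa only [map_mul, map_X, aeval_X] using hp.mul (h i)

variable {w : Fin M → Option (Fin t)} {Θ : Pt t a → Fin M → ℂ} {PP : PT M t a} {y : Fin M → Ω}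
  {p v : Pt t a} {β : Cht M t} {g : Fin (t + a) → Ω} {δ : Ω → Ω} {D : Der}

/-- The point `y` corresponds to the complex point `p`. -/
structure GKkP (Θ : Pt t a → Fin M → ℂ) (k : Subfield ℂ) (φ : Ω₀ →+* ℂ) (y : Fin M → Ω)
    (p : Pt t a) : Prop where
  con : ∀ c ∈ k, GKkR φ (algebraMap ℂ Ω c) c
  pt : ∀ c b, GKkR φ (y c / y b) (Θ p c / Θ p b)

lemma GKkP.ch (h : GKkP Θ k φ y p) (hβ : Ch w β y) : Ch w β (Θ p) := fun o =>
  ⟨(hβ o).1, fun e => by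
    have h1 := h.pt (β o) (β o)
    rw [e, div_self (hβ o).2, div_zero] at h1
    exact one_ne_zero (h1.inj GKkR.zero)⟩

lemma GKkP.vf (h : GKkP Θ k φ y p) (G : GD w Θ PP k) (hg : ∀ i, GKkR φ (g i) (v i))
    (β : Cht M t) (x : CI M t) :
    GKkR φ (vf (PP β) g (co β y) x) (vf (PP β) v (co β (Θ p)) x) :=
  GKkR.sum _ fun i => (hg i).mul (GKkR.aeval h.con (G.cf β i x) fun x => h.pt x.1 (β x.2))

lemma GKkP.vel (h : GKkP Θ k φ y p) (G : GD w Θ PP k) (hg : ∀ i, GKkR φ (g i) (v i))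
    (hD : ∀ x z, GKkR φ x z → GKkR φ (δ x) (D z)) (hv : Tan Θ D p v) : Vel w PP δ y g :=
  fun β hβ x => (hD _ _ (h.pt x.1 (β x.2))).inj (by
    have h1 := h.vf G hg β x
    rwa [← (G.tan_iff (h.ch hβ)).1 hv] at h1)

lemma GKkP.tan (h : GKkP Θ k φ y p) (G : GD w Θ PP k) (hg : ∀ i, GKkR φ (g i) (v i))
    (hD : ∀ x z, GKkR φ x z → GKkR φ (δ x) (D z)) (hβ : Ch w β y)
    (hv : ∀ x, δ (co β y x) = H43.vf (PP β) g (co β y) x) : Tan Θ D p v :=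
  (G.tan_iff (h.ch hβ)).2 fun x => (hD _ _ (h.pt x.1 (β x.2))).fn (by
    have h1 := h.vf G hg β x
    rwa [← hv] at h1)

lemma GKkSet (h1 : SDown) (G : GD w Θ PP k) (hk : Countable k) (hy : OnG w Θ y)
    (δ δ' : Derivation ℤ Ω Ω) (hδ : KillA k δ) (hδ' : KillA k δ') (g g' : Fin (t + a) → Ω) :
    ∃ (Ω₀ : Subfield Ω) (φ : Ω₀ →+* ℂ) (D D' : Der) (p v v' : Pt t a), GKkP Θ k φ y p ∧
      Kill k D ∧ Kill k D' ∧ (∀ x z, GKkR φ x z → GKkR φ (δ x) (D z)) ∧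
      (∀ x z, GKkR φ x z → GKkR φ (δ' x) (D' z)) ∧ (∀ i, GKkR φ (g i) (v i)) ∧
      ∀ i, GKkR φ (g' i) (v' i) := by
  obtain ⟨Ω₀, φ, D, p, -, hT, a1, a2, a3, a4⟩ := h1 t a M w Θ k Ω Bool Unit
    (fun b => bif b then δ else δ') (fun _ => y) (Set.range g ∪ Set.range g') hk G.clh
    (fun b => by cases b; exacts [hδ', hδ]) (fun _ => hy)
    ((Set.countable_range g).union (Set.countable_range g'))
  have key : ∀ b x z, GKkR φ x z → GKkR φ ((bif b then δ else δ') x) (D b z) := by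
    rintro b x z ⟨h, rfl⟩
    obtain ⟨h', e⟩ := a3 b ⟨x, h⟩
    exact ⟨h', e.symm⟩
  exact ⟨Ω₀, φ, D true, D false, p (), fun i => φ ⟨g i, hT (Or.inl ⟨i, rfl⟩)⟩,
    fun i => φ ⟨g' i, hT (Or.inr ⟨i, rfl⟩)⟩, ⟨a1, a4 ()⟩, a2 _, a2 _, key true, key false,
    fun i => ⟨_, rfl⟩, fun i => ⟨_, rfl⟩⟩

lemma GKkEqs (Θ : Pt t a → Fin M → ℂ) : Ev fun k => ∀ (A : Type) [CommRing A] [Algebra ℂ A]
    (y : Fin M → A), (∀ (F : PR M) (d : ℕ), F.IsHomogeneous d → Cf k F →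
      (∀ p, eval (Θ p) F = 0) → aeval y F = 0) → Eqs Θ y := by
  obtain ⟨s, hs, e⟩ := (Submodule.fg_span_iff_fg_span_finset_subset (R := PR M)
    {F : PR M | ∃ d, F.IsHomogeneous d ∧ ∀ p, eval (Θ p) F = 0}).1 (IsNoetherian.noetherian _)
  refine (Ev.all fun F : s => ev_cf (F : PR M)).mono fun k hk A _ _ y H F d h1 h2 => ?_
  have h3 : F ∈ Submodule.span (PR M) (s : Set (PR M)) := e ▸ Submodule.subset_span ⟨d, h1, h2⟩
  refine (Submodule.span_le (p := RingHom.ker (aeval y : PR M →ₐ[ℂ] A))).2 (fun Q hQ => ?_) h3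
  obtain ⟨d, a, b⟩ := hs hQ
  exact H Q d a (hk ⟨Q, hQ⟩) b

theorem sGKk (h1 : SDown) (h2 : SLin) : SGKk := by
  intro t a M w Θ PP hG
  obtain ⟨k, k0, G⟩ := hG.exists
  refine ⟨((GKkEqs Θ).and (ev_le k0)).mono fun k' ⟨e, hk⟩ => ⟨e, fun Ω _ _ y δ hy hδ => ?_,
    fun Ω _ _ y δ g β hy hδ hβ hg => ?_, fun Ω _ _ y δ δ' g g' hy hδ hδ' hg hg' => ?_⟩,
    fun Ω _ _ y g β hy hβ hg => ?_⟩
  · have hδ0 : KillA k δ := fun c hc => hδ c (hk hc)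
    obtain ⟨Ω₀, φ, D, -, p, -, -, P, a, -, b, -⟩ := GKkSet h1 G k0 hy δ δ hδ0 hδ0 0 0
    obtain ⟨v, hv⟩ := G.ex D p a
    obtain ⟨β, hβ⟩ := exists_ch hy.blk
    have h := (h2 ℂ φ.fieldRange).1 _ _ (fun x i => aeval (co β (Θ p)) (PP β i x))
      (fun x => D (co β (Θ p) x)) v
      (fun x i => (GKkR.aeval P.con (G.cf β i x) fun x => P.pt x.1 (β x.2)).mem)
      (fun x => (b _ _ (P.pt x.1 (β x.2))).mem) (fun x => ((G.tan_iff (P.ch hβ)).1 hv x).symm)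
      fun v' hv' => G.imm β p v' (P.ch hβ) hv'
    choose g hg using h
    exact ⟨fun i => g i, P.vel G (fun i => ⟨(g i).2, hg i⟩) b hv⟩
  · have hδ0 : KillA k δ := fun c hc => hδ c (hk hc)
    obtain ⟨Ω₀, φ, D, -, p, v, -, P, -, -, b, -, c, -⟩ := GKkSet h1 G k0 hy δ δ hδ0 hδ0 g 0
    exact P.vel G c b (P.tan G c b hβ hg)
  · obtain ⟨Ω₀, φ, D, D', p, v, v', P, a, a', b, b', c, c'⟩ := GKkSet h1 G k0 hy δ δ'
      (fun c hc => hδ c (hk hc)) (fun c hc => hδ' c (hk hc)) g g'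
    obtain ⟨β, hβ⟩ := exists_ch hy.blk
    exact P.vel G (fun i => (b _ _ (c' i)).sub (b' _ _ (c i)))
      (fun x z h => (b _ _ (b' _ _ h)).sub (b' _ _ (b _ _ h)))
      (G.br D D' p v v' a a' (P.tan G c b hβ (hg β hβ)) (P.tan G c' b' hβ (hg' β hβ)))
  · obtain ⟨Ω₀, φ, -, -, p, v, -, P, -, -, -, -, c, -⟩ := GKkSet h1 G k0 hy 0 0
      (fun _ _ => rfl) (fun _ _ => rfl) g 0
    have h := G.imm β p v (P.ch hβ) fun x => (P.vf G c β x).fn (hg x ▸ GKkR.zero)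
    exact funext fun i => (c i).inj (h ▸ GKkR.zero)

end Pool.Agent.MP_c69980_ag.H43
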