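import Pool.Agent.MP_c69980_ag.H43.Spec9

/-!
Removing finitely many poles of bounded order costs little.
-/

set_option autoImplicit false

namespace Pool.Agent.MP_c69980_ag.H43

open H60 Finset Module

section

variable {F K : Type} [Field F] [Field K] [Algebra F K]

theorem kill_ind (V : ValuationSubring K) {π : K} (h0 : π ≠ 0) (h1 : V.valuation π < 1) :
    ∀ (m : ℕ) (y : Fin m → K), (∀ a, y a = 0 ∨ V.valuation (y a) = 1) →
      ∑ a : Fin m, π ^ (a : ℕ) * y a = 0 → y = 0
  | 0, _, _, _ => Subsingleton.elim _ _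
  | m + 1, y, hy, h => by
    rw [Fin.sum_univ_succ] at h
    simp only [Fin.val_zero, pow_zero, one_mul, Fin.val_succ, pow_succ', mul_assoc,
      ← mul_sum] at h
    have hs : V.valuation (∑ a : Fin m, π ^ (a : ℕ) * y a.succ) ≤ 1 :=
      Valuation.map_sum_le _ fun a _ => by
        rw [map_mul, map_pow]
        refine mul_le_one' (pow_le_one' h1.le _) ?_
        rcases hy a.succ with e | e <;> simp [e]
    have e0 : y 0 = 0 := (hy 0).resolve_right fun e => by
      rw [eq_neg_of_add_eq_zero_left h, Valuation.map_neg, map_mul] at e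
      exact absurd e (mul_lt_one_of_lt_of_le h1 hs).ne
    rw [e0, zero_add] at h
    have := kill_ind V h0 h1 m (fun a => y a.succ) (fun a => hy _)
      ((mul_eq_zero.1 h).resolve_left h0)
    exact funext (Fin.cases e0 (congrFun this))

theorem kill_fin {N : ℕ} (g : Fin N → K) (n : ℕ) : Module.Finite F (Pol F g n) := by
  unfold Pol
  infer_instance

theorem kill_mul {N : ℕ} {g : Fin N → K} {π : K} (hπ : π ∈ Set.range g) {n : ℕ} (a : ℕ) {x : K}
    (hx : x ∈ Pol F g n) {m : ℕ} (h : a + n ≤ m) : π ^ a * x ∈ Pol F g m := by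
  obtain ⟨i, rfl⟩ := hπ
  obtain ⟨P, hP, rfl⟩ := hx
  refine ⟨MvPolynomial.X i ^ a * P, ?_, by simp⟩
  rw [SetLike.mem_coe, MvPolynomial.mem_restrictTotalDegree] at hP ⊢
  refine (MvPolynomial.totalDegree_mul _ _).trans (le_trans (Nat.add_le_add ?_ hP) h)
  rw [MvPolynomial.totalDegree_X_pow]

theorem kill_step {N r C₁ : ℕ} {g : Fin N → K}
    (hd : ∀ n, finrank F (Pol F g n) ≤ C₁ * (n + 1) ^ (r + 1)) {V : ValuationSubring K} {π : K}
    (hF : ∀ c, algebraMap F K c ∈ V) (hπ : π ∈ Set.range g) (h0 : π ≠ 0) (h1 : V.valuation π < 1)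
    (hu : ∀ x, V.valuation x < 1 → V.valuation x ≤ V.valuation π) {n i : ℕ} {W : Submodule F K}
    (hW : W ≤ Pol F g n) (hi : ∀ x ∈ W, π ^ (i + 1) * x ∈ V) :
    ∃ W' ≤ W, (∀ x ∈ W', π ^ i * x ∈ V) ∧
      finrank F W ≤ finrank F W' + C₁ * 2 ^ (r + 1) * (n + 1) ^ r := by
  let W' : Submodule F K :=
    { carrier := {x | x ∈ W ∧ π ^ i * x ∈ V}
      add_mem' := fun {x y} hx hy => ⟨W.add_mem hx.1 hy.1, by
        rw [mul_add]; exact V.add_mem _ _ hx.2 hy.2⟩
      zero_mem' := ⟨W.zero_mem, by rw [mul_zero]; exact V.zero_mem⟩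
      smul_mem' := fun c x hx => ⟨W.smul_mem c hx.1, by
        rw [Algebra.smul_def, mul_left_comm]; exact V.mul_mem _ _ (hF c) hx.2⟩ }
  have hle : W' ≤ W := fun x hx => hx.1
  refine ⟨W', hle, fun x hx => hx.2, ?_⟩
  have := kill_fin (F := F) g n
  have := kill_fin (F := F) g (2 * n)
  have hWf : Module.Finite F W := Submodule.finiteDimensional_of_le hW
  obtain ⟨Q', hQ'⟩ := Submodule.exists_isCompl W'
  let Q := W ⊓ Q'
  have hQW : Q ≤ W := inf_le_left
  have : Module.Finite F Q := Submodule.finiteDimensional_of_le hQW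
  have : Module.Finite F W' := Submodule.finiteDimensional_of_le hle
  have e1 : W' ⊔ Q = W := by
    change W' ⊔ W ⊓ Q' = W
    rw [inf_comm, ← sup_inf_assoc_of_le _ hle, hQ'.sup_eq_top, top_inf_eq]
  have e2 : finrank F W ≤ finrank F W' + finrank F Q := by
    rw [← e1]
    exact Submodule.finrank_add_le_finrank_add_finrank _ _
  refine e2.trans (Nat.add_le_add_left ?_ _)
  have hv : ∀ x ∈ Q, π ^ (i + 1) * x = 0 ∨ V.valuation (π ^ (i + 1) * x) = 1 := fun x hx => by
    by_cases hx' : π ^ i * x ∈ V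
    · left
      rw [(Submodule.disjoint_def.1 hQ'.disjoint) x ⟨hx.1, hx'⟩ hx.2, mul_zero]
    · right
      refine le_antisymm ((V.valuation_le_one_iff _).2 (hi x hx.1)) ?_
      have a1 : 1 < V.valuation (π ^ i * x) := not_le.1 fun h => hx' ((V.valuation_le_one_iff _).1 h)
      have a0 : 0 < V.valuation (π ^ i * x) := zero_lt_one.trans a1
      have a2 := hu (π ^ i * x)⁻¹ (by rw [map_inv₀]; exact inv_lt_one_of_one_lt₀ a1)
      rw [pow_succ', mul_assoc, map_mul]
      rwa [map_inv₀, inv_le_iff_one_le_mul₀ a0] at a2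
  let L : (Fin (n + 1) → Q) →ₗ[F] Pol F g (2 * n) :=
    { toFun := fun x => ⟨∑ a : Fin (n + 1), π ^ (a : ℕ) * x a, Submodule.sum_mem _ fun a _ =>
        kill_mul hπ a (hW (hQW (x a).2)) (by omega)⟩
      map_add' := fun x y => Subtype.ext (by simp [mul_add, sum_add_distrib])
      map_smul' := fun c x => Subtype.ext (by simp [smul_sum]) }
  have hL : Function.Injective L := by
    refine (injective_iff_map_eq_zero L).2 fun x hx => ?_
    have hx' : ∑ a : Fin (n + 1), π ^ (a : ℕ) * x a = 0 := congrArg Subtype.val hx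
    have := kill_ind V h0 h1 (n + 1) (fun a => π ^ (i + 1) * x a) (fun a => hv _ (x a).2) (by
      simp only [mul_left_comm _ (π ^ (i + 1)), ← mul_sum, hx', mul_zero])
    funext a
    exact Subtype.ext ((mul_eq_zero.1 (congrFun this a)).resolve_left (pow_ne_zero _ h0))
  have h3 := (LinearMap.finrank_le_finrank_of_injective hL).trans (hd (2 * n))
  rw [finrank_pi_fintype, sum_const, card_univ, Fintype.card_fin, smul_eq_mul] at h3
  refine Nat.le_of_mul_le_mul_left (h3.trans ?_) n.succ_pos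
  calc C₁ * (2 * n + 1) ^ (r + 1) ≤ C₁ * (2 * (n + 1)) ^ (r + 1) := by gcongr; omega
    _ = _ := by rw [mul_pow]; ring

theorem kill_one {N r C₁ : ℕ} {g : Fin N → K}
    (hd : ∀ n, finrank F (Pol F g n) ≤ C₁ * (n + 1) ^ (r + 1)) {V : ValuationSubring K} {π : K}
    (hF : ∀ c, algebraMap F K c ∈ V) (hπ : π ∈ Set.range g) (h0 : π ≠ 0) (h1 : V.valuation π < 1)
    (hu : ∀ x, V.valuation x < 1 → V.valuation x ≤ V.valuation π) {n : ℕ} :
    ∀ (J : ℕ) (W : Submodule F K), W ≤ Pol F g n → (∀ x ∈ W, π ^ J * x ∈ V) →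
      ∃ W' ≤ W, (∀ x ∈ W', x ∈ V) ∧
        finrank F W ≤ finrank F W' + J * (C₁ * 2 ^ (r + 1) * (n + 1) ^ r)
  | 0, W, _, h => ⟨W, le_rfl, fun x hx => by simpa using h x hx, Nat.le_add_right _ _⟩
  | J + 1, W, hW, h => by
    obtain ⟨W₁, l1, m1, d1⟩ := kill_step hd hF hπ h0 h1 hu hW h
    obtain ⟨W₂, l2, m2, d2⟩ := kill_one hd hF hπ h0 h1 hu J W₁ (l1.trans hW) m1
    exact ⟨W₂, l2.trans l1, m2, by rw [add_mul, one_mul]; omega⟩

end

theorem sKill : SKill := by
  classical
  intro F K _ _ _ N r C₁ J g s π hd hs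
  refine ⟨s.card * J * (C₁ * 2 ^ (r + 1)), fun n W hW h => ?_⟩
  induction s using Finset.induction_on with
  | empty => exact ⟨W, le_rfl, by simp, Nat.le_add_right _ _⟩
  | insert V s hV ih =>
    obtain ⟨W₁, l1, m1, d1⟩ := ih (fun V' h' => hs V' (mem_insert_of_mem h'))
      fun V' h' => h V' (mem_insert_of_mem h')
    obtain ⟨a, b, c, d, e⟩ := hs V (mem_insert_self _ _)
    obtain ⟨W₂, l2, m2, d2⟩ := kill_one hd a b c d e J W₁ (l1.trans hW)
      fun x hx => h V (mem_insert_self _ _) x (l1 hx)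
    refine ⟨W₂, l2.trans l1, fun V' h' x hx => ?_, d1.trans ?_⟩
    · rcases mem_insert.1 h' with rfl | h'
      · exact m2 x hx
      · exact m1 V' h' x (l2 hx)
    · refine (Nat.add_le_add_right d2 _).trans (le_of_eq ?_)
      rw [card_insert_of_notMem hV]
      ring

end Pool.Agent.MP_c69980_ag.H43
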