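import Pool.Agent.MP_c69980_ag.H43.Spec3

/-!
The bad points have codimension two in the leaf.
-/

set_option autoImplicit false

namespace Pool.Agent.MP_c69980_ag.H43

open MvPolynomial H60 Finset

lemma o3_le {k F : Subfield ℂ} (hk : k ≤ F) {ι : Type} (x : ι → ℂ) :
    ∀ u ∈ RA k x, u ∈ RA F x :=
  RA_le (S := (RA F x).toSubring) (fun c hc => (RA F x).algebraMap_mem ⟨c, hk hc⟩) (gen_mem x)

lemma o3_frac {k : Subfield ℂ} {ι : Type} {x : ι → ℂ} {z : ℂ}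
    (hz : z ∈ Subfield.closure (k ∪ Set.range x : Set ℂ)) :
    ∃ b ∈ RA k x, b ≠ 0 ∧ b * z ∈ RA k x := by
  have h : Subring.closure (k ∪ Set.range x : Set ℂ) ≤ (RA k x).toSubring := by
    rw [Subring.closure_le]
    rintro u (hu | ⟨i, rfl⟩)
    · exact (RA k x).algebraMap_mem ⟨u, hu⟩
    · exact gen_mem x i
  obtain ⟨c, hc, b, hb, rfl⟩ := Subfield.mem_closure_iff.1 hz
  by_cases h0 : b = 0
  · exact ⟨1, one_mem _, one_ne_zero, by rw [h0, div_zero, mul_zero]; exact zero_mem _⟩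
  · exact ⟨b, h hb, h0, by rw [mul_div_cancel₀ _ h0]; exact h hc⟩

/-- Denominators that do not vanish at `ξ`. -/
lemma o3_den {k F : Subfield ℂ} (hk : k ≤ F) {ι κ : Type} [Fintype κ] {x : ι → ℂ} {n : ℕ}
    {δ : Fin n → Der} (hF : ∀ l, Kill F (δ l)) (p0 : ∀ l, Pres (δ l) (RA k x))
    (p1 : ∀ l, Pres (δ l) (RA F x)) (hS : Simple (RA F x) (Set.range δ)) (ξ : RA F x →ₐ[F] ℂ)
    (z : κ → ℂ) (hz : ∀ i, z i ∈ Subfield.closure (k ∪ Set.range x : Set ℂ)) (hz' : ∀ i, z i ∈ F) :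
    ∃ b : RA F x, (b : ℂ) ∈ RA k x ∧ ξ b ≠ 0 ∧ ∀ i, b * z i ∈ RA k x := by
  classical
  let S : Set (RA F x) := {b | (b : ℂ) ∈ RA k x ∧ ∀ i, b * z i ∈ RA k x}
  have h1 : Ideal.span S = ⊤ := by
    refine (hS (Ideal.span S) ?_).resolve_left fun h0 => ?_
    · rintro _ ⟨l, rfl⟩ u hu
      induction hu using Submodule.span_induction with
      | mem u hu =>
        intro y hy
        refine Ideal.subset_span ⟨hy ▸ p0 l _ hu.1, fun i => ?_⟩
        have : (y : ℂ) * z i = δ l (u * z i) := by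
          rw [Derivation.leibniz, hF l _ (hz' i), hy, smul_zero, zero_add, smul_eq_mul, mul_comm]
        rw [this]
        exact p0 l _ (hu.2 i)
      | zero =>
        intro y hy
        rw [show y = 0 from Subtype.ext (by simpa using hy)]
        exact zero_mem _
      | add u v _ _ hu hv =>
        intro y hy
        rw [show y = ⟨_, p1 l _ u.2⟩ + ⟨_, p1 l _ v.2⟩ from Subtype.ext (by simpa using hy)]
        exact add_mem (hu _ rfl) (hv _ rfl)
      | smul c u hu' hu =>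
        intro y hy
        rw [show y = c * ⟨_, p1 l _ u.2⟩ + ⟨_, p1 l _ c.2⟩ * u from
          Subtype.ext (by simpa [mul_comm] using hy)]
        exact add_mem (Ideal.mul_mem_left _ _ (hu _ rfl)) (Ideal.mul_mem_left _ _ hu')
    · choose b b1 b2 b3 using fun i => o3_frac (hz i)
      have hb : ∏ i, b i ∈ RA k x := prod_mem fun i _ => b1 i
      have h2 : (⟨_, o3_le hk x _ hb⟩ : RA F x) ∈ Ideal.span S := by
        refine Ideal.subset_span ⟨hb, fun i => ?_⟩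
        change (∏ i, b i) * z i ∈ RA k x
        rw [← mul_prod_erase _ _ (mem_univ i), mul_right_comm]
        exact mul_mem (b3 i) (prod_mem fun j _ => b1 j)
      rw [h0, Ideal.mem_bot] at h2
      exact prod_ne_zero_iff.2 (fun i _ => b2 i) (congrArg Subtype.val h2)
  by_contra hn
  have h2 : Ideal.span S ≤ RingHom.ker ξ := Ideal.span_le.2 fun b hb => by
    by_contra h3
    exact hn ⟨b, hb.1, h3, hb.2⟩
  have h3 : (1 : RA F x) ∈ RingHom.ker ξ := h2 (h1 ▸ Submodule.mem_top)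
  rw [RingHom.mem_ker, map_one] at h3
  exact one_ne_zero h3

lemma o3_alg {L : Subfield ℂ} {s : Set ℂ} (h : s ⊆ L) : s ⊆ {x | IsAlgebraic L x} :=
  fun u hu => isAlgebraic_algebraMap (⟨u, h hu⟩ : L)

lemma o3_li {m g : ℕ} {J : Fin m → Fin g} {γ : Fin m → Fin g → ℂ}
    (h : ∀ j i, γ j (J i) = if j = i then 1 else 0) : LinearIndependent ℂ γ := by
  refine Fintype.linearIndependent_iff.2 fun c hc i => ?_
  simpa [h] using congrFun hc (J i)

theorem sO3 (h1 : SInd) (h2 : SLd) (h3 : SHt) (h4 : SPres) (h5 : SDimt) : SO3 := by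
  intro t a M w Θ PP k F D p₀ g n lam δ κ J γ E β hG hC hA hcst hκ hK hγ hE hβ hSD hSδ ξ hξ r hr
  have hk := hC.le
  have xr : Set.range (co β (Θ p₀)) ⊆ rat (Θ p₀) := by
    rintro _ ⟨i, rfl⟩
    exact co_mem β _ i
  have hK0 := FL_chart hβ k
  have pD : Pres D (RA F (co β (Θ p₀))) :=
    ((h4 t a M w Θ PP k F D p₀ g hG hk hC.tan).2.2 hC.mem hC.pres β hβ).1
  have p0 : ∀ l, Pres (δ l) (RA k (co β (Θ p₀))) := fun l =>
    ((h4 t a M w Θ PP k k _ p₀ _ hG le_rfl (hA.tan l)).2.2 (hA.mem l)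
      ((hA.kill l).mono hk).pres β hβ).1
  have p1 : ∀ l, Pres (δ l) (RA F (co β (Θ p₀))) := fun l =>
    ((h4 t a M w Θ PP k F _ p₀ _ hG hk (hA.tan l)).2.2 (fun i => hk (hA.mem l i))
      (hA.kill l).pres β hβ).1
  have p2 : ∀ l, Pres (δ l) (FL k (Θ p₀)) := fun l =>
    (h4 t a M w Θ PP k k _ p₀ _ hG le_rfl (hA.tan l)).1 (fun i => le_FL _ _ (hA.mem l i))
      fun c hc => by rw [hA.kill l c (hk hc)]; exact zero_mem _
  have pE : ∀ j, ∃ E' : Der, (∀ u ∈ FL k (Θ p₀), E' u = E j u) ∧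
      Pres E' (RA F (co β (Θ p₀))) := fun j => by
    obtain ⟨E', e1, e2⟩ := hE j
    exact ⟨E', e1, ((h4 t a M w Θ PP k F E' p₀ _ hG hk
      ((hK.tan j).congr fun u hu => e1 u (rat_FL _ _ hu))).2.2 (hγ j) e2 β hβ).1⟩
  have hq0 : eval (co β (Θ p₀)) (dh κ.Q) ≠ 0 := by
    have : eval (co β (Θ p₀)) (dh κ.Q) = eval (Θ p₀) κ.Q / _ := eval_dh (y := Θ p₀) hκ.hQ β
    rw [this]
    exact div_ne_zero hK.Qn (pow_ne_zero _ (hβ none).2)
  have hcert := hK.cert β hβ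
  have hzz := hK.zz β hβ
  have hIm : Ind k κ.m (rat (Θ p₀)) :=
    h5 t a M w Θ PP k k p₀ _ γ E hG (o3_li hK.ech) fun l => ⟨hK.kill l, hK.tan l⟩
  generalize co β (Θ p₀) = x at xr hK0 pD p0 p1 pE hq0 hcert hzz hSD hSδ ξ hξ hr
  let y : CI M t → ℂ := fun i => ξ ⟨x i, gen_mem x i⟩
  let ev : ∀ P : CP M t, Cf k P → RA F x := fun P hP => ⟨eval x P, (hP.mono hk).eval_mem x⟩
  have hev : ∀ P hP, ξ (ev P hP) = eval y P := fun P hP =>
    hP.map_eval hk ξ (fun i => ⟨x i, gen_mem x i⟩) _ rfl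
  have cQ : Cf k (dh κ.Q : CP M t) := hκ.cQ.rename _
  have hq : ξ (ev _ cQ) = 0 := hξ _ (Or.inl (Or.inl rfl))
  have hq1 : ev _ cQ ≠ 0 := fun h => hq0 (congrArg Subtype.val h)
  have hdim : ∀ s, Ind F s (RA F x) → s ≤ n := fun s hs => by
    by_contra hlt
    exact hA.dim (((h1.gen F s _ x ξ).1 hs).mono le_rfl (not_le.1 hlt) xr)
  have hrn := hdim _ ((h1.hom F _ ξ r hr).2 _ hq1 hq)
  by_contra hlt
  obtain rfl : n = r + 1 := by omega
  have hden := fun (κ : Type) [Fintype κ] => o3_den (κ := κ) hk hA.kill p0 p1 hSδ ξ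
  have hy0 : ∀ u : RA F x, (u : ℂ) ∈ RA k x → ξ u ∈ Subfield.closure (k ∪ Set.range y : Set ℂ) := by
    intro u hu
    obtain ⟨P, hP, e⟩ := mem_RA.1 hu
    rw [show u = ev P hP from Subtype.ext e.symm, hev P hP]
    exact hP.eval_mem_field (fun c hc => Subfield.subset_closure (Or.inl hc))
      fun i => Subfield.subset_closure (Or.inr ⟨i, rfl⟩)
  have hF0 : cst (FL k (Θ p₀)) δ ≤ F := fun u hu =>
    hcst ▸ ⟨FL_le (hk.trans (le_FL _ _)) (rat_FL _ _) hu.1, hu.2⟩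
  have hk0 : k ≤ cst (FL k (Θ p₀)) δ := fun u hu => ⟨le_FL _ _ hu, fun l => hA.kill l u (hk hu)⟩
  have hI : Ind k (κ.m - 1) (Set.range y) := by
    have a1 : ¬ Ind (cst (FL k (Θ p₀)) δ) (r + 1 + 1) (rat (Θ p₀)) := by
      rintro ⟨v, v1, v2⟩
      have := (h2 (Set.range δ) (FL k (Θ p₀)) (cst (FL k (Θ p₀)) δ)
        (by rintro _ ⟨l, rfl⟩; exact p2 l) (fun u hu => hu.1)
        (fun u hu hu' => ⟨hu, fun l => hu' _ ⟨l, rfl⟩⟩) _ v v2).2 fun i => rat_FL _ _ (v1 i)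
      refine hA.dim (Ind.mono ⟨v, v1, this⟩ (fun u hu => ?_) le_rfl Set.Subset.rfl)
      refine Subfield.subset_closure (Or.inr ?_)
      rintro _ ⟨l, rfl⟩
      exact hA.kill l u hu
    have a2 : ¬ Ind k (κ.m + 1) (cst (FL k (Θ p₀)) δ) := fun h =>
      hK.dim (h1.alg k _ _ (h.mono le_rfl le_rfl (o3_alg fun u hu => hu.1)))
    obtain ⟨n0, f, -, f1, f2, f3, -⟩ := h1.max k _ _ a2
    have a3 := h1.bound k _ n0 (r + 1) _ hk0 f1 a1
    have a4 : κ.m ≤ n0 + (r + 1) := by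
      by_contra h
      exact a3 (hIm.mono le_rfl (not_le.1 h) Set.Subset.rfl)
    have a5 := h1.tower k F n0 r (Set.range f) (Set.range y) hk
      (by rintro _ ⟨i, rfl⟩; exact hF0 (f2 i)) ⟨f, fun i => ⟨i, rfl⟩, f3⟩
      ((h1.gen F r _ x ξ).2 hr)
    refine h1.alg k _ _ (a5.mono le_rfl (by omega) (o3_alg ?_))
    rintro _ (⟨i, rfl⟩ | hu)
    · obtain ⟨b, b1, b2, b3⟩ := hden _ f (fun i => hK0 ▸ (f2 i).1) fun i => hF0 (f2 i)
      have e : ξ (b * algebraMap F _ ⟨f i, hF0 (f2 i)⟩) = ξ b * f i := by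
        rw [map_mul, AlgHom.commutes]
        rfl
      rw [show f i = ξ (b * algebraMap F _ ⟨f i, hF0 (f2 i)⟩) / ξ b by
        rw [e, mul_div_cancel_left₀ _ b2]]
      exact div_mem (hy0 _ (b3 i)) (hy0 _ b1)
    · exact Subfield.subset_closure (Or.inr hu)
  obtain ⟨f, hf, hf2⟩ := (hzz y (fun P hP h0 => by
      rw [← hev P hP, show ev P hP = 0 from Subtype.ext h0, map_zero]) ((hev _ cQ).symm.trans hq) (by
      obtain ⟨b, b1, b2, b3⟩ := hden _ (fun p : Fin κ.m × Fin (t + a) => γ p.1 p.2)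
        (fun p => hK0 ▸ hK.mem p.1 p.2) fun p => hγ p.1 p.2
      obtain ⟨P, hP, e⟩ := mem_RA.1 b1
      refine ⟨P, hP, ?_, fun j i => ?_⟩
      · rwa [← hev P hP, show ev P hP = b from Subtype.ext e]
      · obtain ⟨c, hc, e'⟩ := mem_RA.1 (b3 (j, i))
        exact ⟨c, hc, by rw [e, e']⟩)).resolve_left (not_not.2 hI)
  obtain ⟨c1, c2⟩ := hκ.cJ β f hf
  obtain ⟨l, N, b, Ψ, cN, cb, -, e1, e2⟩ := hcert f hf
  obtain ⟨E', e3, e4⟩ := pE l
  rw [← hev _ c2] at hf2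
  have z0 : ξ (ev _ c1) = 0 := by
    have := hξ (ev _ c2 * ev _ c1) (Or.inl (Or.inr ⟨f, hf, rfl⟩))
    rw [map_mul] at this
    exact (mul_eq_zero.1 this).resolve_left hf2
  have z1 : ξ ⟨_, pD _ (ev _ c1).2⟩ = 0 := by
    have := hξ (ev _ c2 * ⟨_, pD _ (ev _ c1).2⟩) (Or.inr ⟨f, hf, rfl⟩)
    rw [map_mul] at this
    exact (mul_eq_zero.1 this).resolve_left hf2
  have z2 : ξ ⟨_, e4 _ (ev _ c1).2⟩ ≠ 0 := fun h => by
    have e5 : ev N cN = ev b cb * ⟨_, e4 _ (ev _ c1).2⟩ := by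
      refine Subtype.ext (e2.trans ?_)
      rw [← e3 _ (c1.eval_mem_field (le_FL _ _) fun i => rat_FL _ _ (xr ⟨i, rfl⟩))]
      rfl
    apply hf2
    rw [hev _ c2, e1, map_mul, ← hev N cN, e5, map_mul, h, mul_zero, mul_zero]
  have hst := h3 F _ D E' ξ r pD e4 hr (fun h => by have := hdim _ h; omega) _ _ _ rfl rfl z0 z1 z2
  rcases hSD (RingHom.ker ξ) (by
    rintro _ rfl u hu v hv
    exact hst u v hu hv) with h | h
  · have : ev _ cQ ∈ RingHom.ker ξ := hq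
    rw [h, Ideal.mem_bot] at this
    exact hq1 this
  · have : (1 : RA F x) ∈ RingHom.ker ξ := h ▸ Submodule.mem_top
    rw [RingHom.mem_ker, map_one] at this
    exact one_ne_zero this

end Pool.Agent.MP_c69980_ag.H43
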